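import Mathlib

/-!
# Alternating links with two types of twist regions: definitions

The lattices of integral cuts and integral flows of the Tait graph of an alternating diagram whose
twist regions are indexed by two finite sets `I` (edges in series) and `J` (parallel edges; the
classes of parallel edges form a spanning tree of the reduced graph), and the condition which
Donaldson's theorem imposes on them if the link is slice.
-/

set_option autoImplicit false

namespace Pool.Agent.H758.SR

open Finset Matrix

section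

variable {I J : Type} [Fintype I] [Fintype J]

/-- The set of crossings: the twist region `i : I` has `q i` crossings and the twist region `j : J`
has `p j` crossings. -/
abbrev Cross (q : I → ℕ) (p : J → ℕ) : Type := (Σ i, Fin (q i)) ⊕ (Σ j, Fin (p j))

/-- `x` is a cut: it is constant, with value `w j`, on each region `j : J` and has the sum
`∑ j, s i j * w j` on each region `i : I`. -/
def IsCut (s : I → J → ℤ) (q : I → ℕ) (p : J → ℕ) (x : Cross q p → ℤ) : Prop :=
  ∃ w : J → ℤ, (∀ j l, x (.inr ⟨j, l⟩) = w j) ∧ ∀ i, ∑ k, x (.inl ⟨i, k⟩) = ∑ j, s i j * w j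

/-- `x` is a flow: it is constant, with value `y i`, on each region `i : I` and has the sum
`- ∑ i, s i j * y i` on each region `j : J`. -/
def IsFlow (s : I → J → ℤ) (q : I → ℕ) (p : J → ℕ) (x : Cross q p → ℤ) : Prop :=
  ∃ y : I → ℤ, (∀ i k, x (.inl ⟨i, k⟩) = y i) ∧ ∀ j, ∑ l, x (.inr ⟨j, l⟩) = - ∑ i, s i j * y i

variable {s : I → J → ℤ} {q : I → ℕ} {p : J → ℕ}

omit [Fintype I] in
theorem isCut_add {x x' : Cross q p → ℤ} (h : IsCut s q p x) (h' : IsCut s q p x') :
    IsCut s q p (x + x') := by
  obtain ⟨w, h1, h2⟩ := h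
  obtain ⟨w', h1', h2'⟩ := h'
  refine ⟨w + w', fun j l => ?_, fun i => ?_⟩
  · rw [Pi.add_apply, h1, h1', Pi.add_apply]
  · simp only [Pi.add_apply, sum_add_distrib, mul_add, h2, h2']

omit [Fintype I] in
theorem isCut_zero : IsCut s q p 0 := ⟨0, fun _ _ => rfl, fun i => by simp⟩

omit [Fintype I] in
theorem isCut_smul (c : ℤ) {x : Cross q p → ℤ} (h : IsCut s q p x) : IsCut s q p (c • x) := by
  obtain ⟨w, h1, h2⟩ := h
  refine ⟨c • w, fun j l => ?_, fun i => ?_⟩
  · rw [Pi.smul_apply, h1, Pi.smul_apply]
  · simp only [Pi.smul_apply, smul_eq_mul]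
    rw [← mul_sum, h2, mul_sum]
    exact sum_congr rfl fun j _ => by ring

omit [Fintype J] in
theorem isFlow_add {x x' : Cross q p → ℤ} (h : IsFlow s q p x) (h' : IsFlow s q p x') :
    IsFlow s q p (x + x') := by
  obtain ⟨w, h1, h2⟩ := h
  obtain ⟨w', h1', h2'⟩ := h'
  refine ⟨w + w', fun j l => ?_, fun i => ?_⟩
  · rw [Pi.add_apply, h1, h1', Pi.add_apply]
  · simp only [Pi.add_apply, sum_add_distrib, mul_add, h2, h2', neg_add]

omit [Fintype J] in
theorem isFlow_zero : IsFlow s q p 0 := ⟨0, fun _ _ => rfl, fun i => by simp⟩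

omit [Fintype J] in
theorem isFlow_smul (c : ℤ) {x : Cross q p → ℤ} (h : IsFlow s q p x) : IsFlow s q p (c • x) := by
  obtain ⟨w, h1, h2⟩ := h
  refine ⟨c • w, fun j l => ?_, fun i => ?_⟩
  · rw [Pi.smul_apply, h1, Pi.smul_apply]
  · simp only [Pi.smul_apply, smul_eq_mul]
    rw [← mul_sum, h2, mul_neg, mul_sum]
    exact congrArg _ (sum_congr rfl fun j _ => by ring)

variable (s q p)

/-- The lattice of cuts. -/
def cuts : Submodule ℤ (Cross q p → ℤ) where
  carrier := {x | IsCut s q p x}
  add_mem' := isCut_add
  zero_mem' := isCut_zero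
  smul_mem' c _ := isCut_smul c

/-- The lattice of flows, the orthogonal complement of the lattice of cuts. -/
def flows : Submodule ℤ (Cross q p → ℤ) where
  carrier := {x | IsFlow s q p x}
  add_mem' := isFlow_add
  zero_mem' := isFlow_zero
  smul_mem' c _ := isFlow_smul c

end

section

variable {K κ : Type} [Fintype K] [Fintype κ]

/-- The rank of the lattice `L`. -/
noncomputable def rank (L : Submodule ℤ (K → ℤ)) : ℕ := Module.finrank ℤ L

/-- The restriction of `φ` to the lattice `L` is a homomorphism and preserves the standard scalar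
product, that is, it embeds `L` isometrically in the standard lattice `κ → ℤ`. -/
def IsIsometry (L : Submodule ℤ (K → ℤ)) (φ : (K → ℤ) → κ → ℤ) : Prop :=
  ∀ x ∈ L, ∀ y ∈ L, φ (x + y) = φ x + φ y ∧ φ x ⬝ᵥ φ y = x ⬝ᵥ y

/-- The functional `x ↦ x ⬝ᵥ z` on the lattice `L` extends to the standard lattice `κ → ℤ` in
which `L` is embedded by `φ`. -/
def Extends (L : Submodule ℤ (K → ℤ)) (φ : (K → ℤ) → κ → ℤ) (z : K → ℤ) : Prop :=
  ∃ a : κ → ℤ, ∀ x ∈ L, φ x ⬝ᵥ a = x ⬝ᵥ z

end

variable {I J : Type} [Fintype I] [Fintype J]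

/-- The condition imposed by Donaldson's theorem if the link bounds a disc (more generally, if its
double branched cover bounds a rational homology ball `W`): the lattices of cuts and of flows embed
isometrically in the standard lattices of their ranks, and the embeddings fit together: an integral
function `z` on the crossings defines on the lattice of cuts a functional which extends to the
first standard lattice if and only if it defines on the lattice of flows a functional which extends
to the second one (both mean that the class in `H²` of the double branched cover given by `z`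
extends to `W`). -/
def SliceLattices (s : I → J → ℤ) (q : I → ℕ) (p : J → ℕ) : Prop :=
  ∃ (φ : (Cross q p → ℤ) → Fin (rank (cuts s q p)) → ℤ)
    (ψ : (Cross q p → ℤ) → Fin (rank (flows s q p)) → ℤ),
    IsIsometry (cuts s q p) φ ∧ IsIsometry (flows s q p) ψ ∧
      ∀ z, Extends (cuts s q p) φ z ↔ Extends (flows s q p) ψ z

omit [Fintype I] [Fintype J]

open scoped Classical in
/-- The incidence matrix of a graph on the set of vertices `I ⊕ J`. -/
noncomputable def inc (T : SimpleGraph (I ⊕ J)) : I → J → ℤ :=
  fun i j => if T.Adj (.inl i) (.inr j) then 1 else 0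

/-- All edges of the graph join `I` and `J`. -/
def Bip (T : SimpleGraph (I ⊕ J)) : Prop :=
  (∀ i i', ¬ T.Adj (.inl i) (.inl i')) ∧ ∀ j j', ¬ T.Adj (.inr j) (.inr j')

/-- The symmetric trees: the map exchanging `i` and `π i` is an automorphism of the tree, it
reverses an edge `{i₀, π i₀}` whose weights differ by two, and all other weights are preserved. -/
def IsSymmetric (T : SimpleGraph (I ⊕ J)) (q : I → ℕ) (p : J → ℕ) : Prop :=
  ∃ π : I ≃ J, (∀ i k, T.Adj (.inl i) (.inr (π k)) ↔ T.Adj (.inl k) (.inr (π i))) ∧
    ∃ i₀, T.Adj (.inl i₀) (.inr (π i₀)) ∧ (p (π i₀) = q i₀ + 2 ∨ q i₀ = p (π i₀) + 2) ∧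
      ∀ i, i ≠ i₀ → p (π i) = q i

end Pool.Agent.H758.SR
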